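import Pool.Agent.Helper93.PW.QLE

set_option autoImplicit false

namespace Pool.Agent.Helper95.PW

open MeasureTheory Filter

theorem pie_sq_nonneg {n : ℕ} (u : Wf n) : 0 ≤ sq u := by
  unfold sq
  exact Finset.sum_nonneg fun s _ => integral_nonneg fun x => sq_nonneg _

theorem pie_kin_nonneg {n : ℕ} (u : Wf n) : 0 ≤ kin u := by
  unfold kin
  exact Finset.sum_nonneg fun k _ => Finset.sum_nonneg fun i _ => pie_sq_nonneg _

theorem pie_count {n : ℕ} {CN CT D R ν X : ℝ} (hCN : 0 < CN) (hCT : 0 < CT)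
    (hD : D = 2 + CN * (1 + (4 * CT) ^ (3 / 5 : ℝ))) (hR : 0 < R) (hX : 0 < X)
    (hν : ν = n ∨ ν = 1 + (X * R ^ 2) ^ (3 / 5 : ℝ))
    (u : Wf n) (hu : Sm u) (hs : sq u ≤ 2) (hk : kin u ≤ CT * X)
    (hN : one (ball (2 * R)) u ≤ CN * (1 + (kin u * (2 * R) ^ 2) ^ (3 / 5 : ℝ))) :
    one (ball (2 * R)) u ≤ D * ν := by
  have hp : (0 : ℝ) < (4 * CT) ^ (3 / 5 : ℝ) := Real.rpow_pos_of_pos (by positivity) _
  have hD2 : 2 ≤ D := by
    rw [hD]
    have : 0 < CN * (1 + (4 * CT) ^ (3 / 5 : ℝ)) := by positivity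
    linarith
  rcases hν with h | h
  · have h1 := qle_one_ball (2 * R) u hu
    have hn : (0 : ℝ) ≤ n := Nat.cast_nonneg n
    rw [h]
    calc one (ball (2 * R)) u ≤ n * sq u := h1
      _ ≤ n * 2 := mul_le_mul_of_nonneg_left hs hn
      _ ≤ D * n := by
          rw [mul_comm D]
          exact mul_le_mul_of_nonneg_left hD2 hn
  · have hy : (0 : ℝ) ≤ (X * R ^ 2) ^ (3 / 5 : ℝ) := Real.rpow_nonneg (by positivity) _
    have h2 : (kin u * (2 * R) ^ 2) ^ (3 / 5 : ℝ) ≤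
        (4 * CT) ^ (3 / 5 : ℝ) * (X * R ^ 2) ^ (3 / 5 : ℝ) := by
      rw [← Real.mul_rpow (by positivity) (by positivity)]
      apply Real.rpow_le_rpow (mul_nonneg (pie_kin_nonneg u) (by positivity)) _ (by norm_num)
      have : kin u * (2 * R) ^ 2 ≤ CT * X * (2 * R) ^ 2 :=
        mul_le_mul_of_nonneg_right hk (by positivity)
      calc kin u * (2 * R) ^ 2 ≤ CT * X * (2 * R) ^ 2 := this
        _ = 4 * CT * (X * R ^ 2) := by ring
    rw [h]
    set p := (4 * CT) ^ (3 / 5 : ℝ) with hpdef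
    set y := (X * R ^ 2) ^ (3 / 5 : ℝ) with hydef
    calc one (ball (2 * R)) u ≤ CN * (1 + (kin u * (2 * R) ^ 2) ^ (3 / 5 : ℝ)) := hN
      _ ≤ CN * (1 + p * y) := by
          apply mul_le_mul_of_nonneg_left _ hCN.le
          linarith
      _ ≤ CN * ((1 + p) * (1 + y)) := by
          apply mul_le_mul_of_nonneg_left _ hCN.le
          nlinarith
      _ = (CN * (1 + p)) * (1 + y) := by ring
      _ ≤ D * (1 + y) := by
          apply mul_le_mul_of_nonneg_right _ (by linarith)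
          rw [hD]
          linarith

theorem pie_alg {CS K D CT ν X r N Y : ℝ} (hCS : 0 < CS) (hCT : 0 < CT) (hD : 0 < D)
    (hν : 0 ≤ ν) (hX : 0 < X) (hr : 0 < r) (hN0 : 0 ≤ N) (hN : N ≤ D * ν)
    (hY : Y ≤ 3 * CT * X) :
    CS * K ^ 4 * (N * (Y / r ^ 2 + N / r ^ 4)) ≤
      CS * K ^ 4 * D * (3 * CT + D) * (ν * (X / r ^ 2 + ν / r ^ 4)) := by
  have hDν : 0 ≤ D * ν := by positivity
  have e1 : Y / r ^ 2 + N / r ^ 4 ≤ (3 * CT * X) / r ^ 2 + (D * ν) / r ^ 4 :=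
    add_le_add (div_le_div_of_nonneg_right hY (by positivity))
      (div_le_div_of_nonneg_right hN (by positivity))
  have e2 : N * (Y / r ^ 2 + N / r ^ 4) ≤
      (D * ν) * ((3 * CT * X) / r ^ 2 + (D * ν) / r ^ 4) :=
    calc N * (Y / r ^ 2 + N / r ^ 4) ≤ N * ((3 * CT * X) / r ^ 2 + (D * ν) / r ^ 4) :=
          mul_le_mul_of_nonneg_left e1 hN0
      _ ≤ _ := mul_le_mul_of_nonneg_right hN (by positivity)
  have e3 : (D * ν) * ((3 * CT * X) / r ^ 2 + (D * ν) / r ^ 4) ≤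
      D * (3 * CT + D) * (ν * (X / r ^ 2 + ν / r ^ 4)) := by
    have a1 : 0 ≤ D * ν * (D * (X / r ^ 2)) := by positivity
    have a2 : 0 ≤ D * ν * (3 * CT * (ν / r ^ 4)) := by positivity
    have a3 : D * (3 * CT + D) * (ν * (X / r ^ 2 + ν / r ^ 4)) =
        (D * ν) * ((3 * CT * X) / r ^ 2 + (D * ν) / r ^ 4) +
        (D * ν * (D * (X / r ^ 2)) + D * ν * (3 * CT * (ν / r ^ 4))) := by ring
    rw [a3]
    linarith
  have e4 : 0 ≤ CS * K ^ 4 := by positivity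
  calc CS * K ^ 4 * (N * (Y / r ^ 2 + N / r ^ 4)) ≤
      CS * K ^ 4 * (D * (3 * CT + D) * (ν * (X / r ^ 2 + ν / r ^ 4))) :=
        mul_le_mul_of_nonneg_left (e2.trans e3) e4
    _ = _ := by ring

theorem st_PIE (h1 : ST_SHL) (h2 : ST_NR) (h3 : ST_TUP) (h4 : ST_APX) (h5 : ST_LMT)
    (h6 : ST_CUT) (h7 : ST_QH) (h8 : ST_INT) : ST_PIE := by
  obtain ⟨CS, hCS, H1⟩ := h1
  obtain ⟨CN, hCN, H2⟩ := h2
  obtain ⟨CT, hCT, H3⟩ := h3
  obtain ⟨K, hK, _, H6⟩ := h6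
  have hp : (0 : ℝ) < (4 * CT) ^ (3 / 5 : ℝ) := Real.rpow_pos_of_pos (by positivity) _
  set D : ℝ := 2 + CN * (1 + (4 * CT) ^ (3 / 5 : ℝ)) with hD
  have hD0 : 0 < D := by positivity
  have hK0 : 0 < K := lt_of_lt_of_le one_pos hK
  refine ⟨CS * K ^ 4 * D * (3 * CT + D), by positivity, ?_⟩
  intro n E φ G m r R ν hn hG hE hr hrR hν
  have hR : 0 < R := lt_of_lt_of_le hr hrR
  obtain ⟨u, hu, _, _, ⟨M0, hM0⟩, hres⟩ := id (h4 n E φ G hG)
  have happ : Appr E φ G u := ⟨hu, by assumption, by assumption, ⟨M0, hM0⟩, hres⟩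
  obtain ⟨l1, _, l3⟩ := h5 n E φ G u hG happ
  obtain ⟨hsc, hz1, hz2⟩ := H6 m r R hr hrR
  set g : R3 → ℝ := fun y => gm m R y - gm m r y with hg
  have hn1 : (1 : ℝ) ≤ n := by exact_mod_cast hn
  have hn0 : (0 : ℝ) < n := lt_of_lt_of_le one_pos hn1
  set X : ℝ := (n : ℝ) ^ (7 / 3 : ℝ) with hXdef
  have hX : 0 < X := Real.rpow_pos_of_pos hn0 _
  have hν0 : 0 ≤ ν := by
    rcases hν with h | h
    · rw [h]; exact hn0.le
    · rw [h]
      have : (0 : ℝ) ≤ (X * R ^ 2) ^ (3 / 5 : ℝ) := Real.rpow_nonneg (by positivity) _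
      linarith
  obtain ⟨C', hC', HS⟩ := H1 n n E g K r (2 * R) (max M0 (CT * X)) hG.low hn0.le hsc hr hz1 hz2
  have t1 : Tendsto (fun j => sq (fun s => Pg g (u j s)) ^ 2) atTop
      (nhds (sq (PG g φ G) ^ 2)) := (l3 g hsc.sm hsc.cs).pow 2
  have t2 : Tendsto (fun j => CS * K ^ 4 * D * (3 * CT + D) * (ν * (X / r ^ 2 + ν / r ^ 4)) +
      C' * Real.sqrt (res n E (u j))) atTop
      (nhds (CS * K ^ 4 * D * (3 * CT + D) * (ν * (X / r ^ 2 + ν / r ^ 4)) +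
        C' * Real.sqrt 0)) :=
    tendsto_const_nhds.add (tendsto_const_nhds.mul
      ((Real.continuous_sqrt.tendsto 0).comp hres))
  rw [Real.sqrt_zero, mul_zero, add_zero] at t2
  apply le_of_tendsto_of_tendsto t1 t2
  have v1 : ∀ᶠ j in atTop, sq (u j) < 2 := l1.eventually (gt_mem_nhds (by norm_num))
  have v2 : ∀ᶠ j in atTop, res n E (u j) < 1 / 2 := hres.eventually (gt_mem_nhds (by norm_num))
  filter_upwards [v1, v2] with j w1 w2
  have hsm := (hu j).1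
  have hQ : Q n (u j) ≤ 1 := qle_main h7 h8 n E (u j) hsm w1.le hE w2.le
  obtain ⟨b1, b2, b3⟩ := H3 n (u j) hn hsm (hu j).2 w1.le hQ
  have ho : 0 ≤ one (fun y => 1 / nr y) (u j) :=
    qle_one_nonneg _ (fun y => div_nonneg zero_le_one (qle_nr_nonneg y)) _
  have b4 : one (fun y => 1 / nr y) (u j) ≤ CT * X := by
    have : 1 * one (fun y => 1 / nr y) (u j) ≤ n * one (fun y => 1 / nr y) (u j) :=
      mul_le_mul_of_nonneg_right hn1 ho
    linarith
  have hcount : one (ball (2 * R)) (u j) ≤ D * ν :=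
    pie_count hCN hCT hD hR hX hν (u j) hsm w1.le b1 (H2 n (u j) hsm (hu j).2 w1.le (2 * R)
      (by positivity))
  have hb0 : 0 ≤ one (ball (2 * R)) (u j) := qle_one_nonneg _ (qle_ball_nonneg _) _
  have key := HS (u j) hsm (hu j).2 w1.le (b1.trans (le_max_right _ _))
    (b2.trans (le_max_right _ _)) (b4.trans (le_max_right _ _)) ((hM0 j).trans (le_max_left _ _))
    (by linarith)
  have key2 := pie_alg (K := K) (r := r) (N := one (ball (2 * R)) (u j))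
    (Y := kin (u j) + pair (u j) + n * one (fun y => 1 / nr y) (u j)) hCS hCT hD0 hν0 hX hr hb0
    hcount (by linarith)
  linarith

end Pool.Agent.Helper95.PW
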