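import Pool.Agent.Helper81.PW.Com

set_option autoImplicit false

namespace Pool.Agent.Helper95.PW

open MeasureTheory Filter

theorem apb_norm {n : ℕ} {f : Cf n → ℝ} (hf : MemLp f 2 volume) :
    eLpNorm f 2 volume = ENNReal.ofReal (Real.sqrt (∫ x, f x ^ 2)) := by
  rw [hf.eLpNorm_eq_integral_rpow_norm (by norm_num) (by norm_num), Real.sqrt_eq_rpow]
  have e : (∫ a, ‖f a‖ ^ (2 : ENNReal).toReal) = ∫ x, f x ^ 2 := by
    congr 1
    funext x
    rw [ENNReal.toReal_ofNat, Real.rpow_two, Real.norm_eq_abs, sq_abs]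
  rw [e, ENNReal.toReal_ofNat, one_div]

theorem apb_bound {n : ℕ} {f : Cf n → ℝ} (hf : MemLp f 2 volume) {c : ℝ}
    (h : ∫ x, f x ^ 2 ≤ c) : eLpNorm f 2 volume ≤ ENNReal.ofReal (Real.sqrt c) := by
  rw [apb_norm hf]
  exact ENNReal.ofReal_le_ofReal (Real.sqrt_le_sqrt h)

theorem apb_to_norm {n : ℕ} {f : ℕ → Cf n → ℝ} (hf : ∀ j, MemLp (f j) 2 volume)
    (h : Tendsto (fun j => ∫ x, f j x ^ 2) atTop (nhds 0)) :
    Tendsto (fun j => eLpNorm (f j) 2 volume) atTop (nhds 0) := by
  have e : (fun j => eLpNorm (f j) 2 volume) =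
      fun j => ENNReal.ofReal (Real.sqrt (∫ x, f j x ^ 2)) := by
    funext j
    exact apb_norm (hf j)
  rw [e]
  have h2 := ENNReal.tendsto_ofReal ((Real.continuous_sqrt.tendsto 0).comp h)
  rw [Real.sqrt_zero, ENNReal.ofReal_zero] at h2
  exact h2

theorem apb_to_int {n : ℕ} {f : ℕ → Cf n → ℝ} (hf : ∀ j, MemLp (f j) 2 volume)
    (h : Tendsto (fun j => eLpNorm (f j) 2 volume) atTop (nhds 0)) :
    Tendsto (fun j => ∫ x, f j x ^ 2) atTop (nhds 0) := by
  have e : (fun j => ∫ x, f j x ^ 2) = fun j => (eLpNorm (f j) 2 volume).toReal ^ 2 := by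
    funext j
    have h0 : 0 ≤ ∫ x, f j x ^ 2 := integral_nonneg fun x => sq_nonneg _
    rw [apb_norm (hf j), ENNReal.toReal_ofReal (Real.sqrt_nonneg _), Real.sq_sqrt h0]
  rw [e]
  have h2 := ((ENNReal.tendsto_toReal ENNReal.zero_ne_top).comp h).pow 2
  simpa using h2

theorem apb_quot {n : ℕ} {v : Cf n → ℝ} (hv : Continuous v) {d : Cf n → ℝ} (hd : Measurable d)
    (hi : Integrable (fun x => v x ^ 2 / d x ^ 2)) {c : ℝ}
    (hc : ∫ x, v x ^ 2 / d x ^ 2 ≤ c) :
    MemLp (fun x => v x / d x) 2 volume ∧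
      eLpNorm (fun x => v x / d x) 2 volume ≤ ENNReal.ofReal (Real.sqrt c) := by
  have h1 : MemLp (fun x => v x / d x) 2 volume := by
    refine (memLp_two_iff_integrable_sq (f := fun x => v x / d x)
      (hv.measurable.div hd).aestronglyMeasurable).2 ?_
    refine hi.congr (Eventually.of_forall fun x => ?_)
    simp only [div_pow]
  refine ⟨h1, apb_bound h1 ?_⟩
  simp only [div_pow]
  exact hc

/-- Hardy, in all terms of the potential -/
theorem apb_hardy (h1 : ST_HA1) (h2 : ST_HA2) {n : ℕ} (Z : ℝ) {v : Cf n → ℝ}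
    (hv : ContDiff ℝ (⊤ : ℕ∞) v) (hc : HasCompactSupport v) {T : ℝ}
    (hT : ∑ k, ∑ i, ∫ x, dv k i v x ^ 2 ≤ T) :
    eLpNorm (fun x : Cf n => (rep x - Z * att x) * v x) 2 volume ≤
      ENNReal.ofReal ((n * n + |Z| * n) * Real.sqrt (4 * T)) := by
  have hk : ∀ k : Fin n, 4 * ∫ x, ∑ i, dv k i v x ^ 2 ≤ 4 * T := by
    intro k
    rw [integral_finsetSum]
    · have : ∑ i, ∫ x, dv k i v x ^ 2 ≤ ∑ k, ∑ i, ∫ x, dv k i v x ^ 2 :=
        Finset.single_le_sum (f := fun k => ∑ i, ∫ x, dv k i v x ^ 2)
          (fun k _ => Finset.sum_nonneg fun i _ => integral_nonneg fun x => sq_nonneg _)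
          (Finset.mem_univ k)
      linarith
    · intro i _
      exact (com_memLp _ (com_dv_smooth k i v hv) (com_dv_cs k i v hc)).integrable_sq
  have ha : ∀ k : Fin n, MemLp (fun x : Cf n => v x / nr (x k)) 2 volume ∧
      eLpNorm (fun x : Cf n => v x / nr (x k)) 2 volume ≤
        ENNReal.ofReal (Real.sqrt (4 * T)) := by
    intro k
    obtain ⟨a1, a2⟩ := h1 n k v hv hc
    exact apb_quot hv.continuous (com_nr_meas.comp (measurable_pi_apply k)) a1 (a2.trans (hk k))
  have hb : ∀ k l : Fin n,
      MemLp (fun x : Cf n => if k < l then v x / nr (x k - x l) else 0) 2 volume ∧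
      eLpNorm (fun x : Cf n => if k < l then v x / nr (x k - x l) else 0) 2 volume ≤
        ENNReal.ofReal (Real.sqrt (4 * T)) := by
    intro k l
    by_cases hkl : k < l
    · simp only [if_pos hkl]
      obtain ⟨a1, a2⟩ := h2 n k l v hkl.ne hv hc
      exact apb_quot hv.continuous
        (com_nr_meas.comp ((measurable_pi_apply k).sub (measurable_pi_apply l))) a1
        (a2.trans (hk k))
    · simp only [if_neg hkl]
      refine ⟨MemLp.zero, ?_⟩
      rw [show (fun _ : Cf n => (0 : ℝ)) = 0 from rfl, eLpNorm_zero]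
      exact zero_le
  have e : (fun x : Cf n => (rep x - Z * att x) * v x) =
      (∑ k, ∑ l, fun x : Cf n => if k < l then v x / nr (x k - x l) else 0) -
        Z • ∑ k, fun x : Cf n => v x / nr (x k) := by
    funext x
    simp only [Pi.sub_apply, Finset.sum_apply, Pi.smul_apply, smul_eq_mul]
    unfold rep att
    rw [sub_mul, mul_assoc, Finset.sum_mul, Finset.sum_mul]
    congr 1
    · apply Finset.sum_congr rfl
      intro k _
      rw [Finset.sum_mul]
      apply Finset.sum_congr rfl
      intro l _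
      by_cases hkl : k < l
      · simp only [if_pos hkl]
        ring
      · simp only [if_neg hkl, zero_mul]
    · congr 1
      apply Finset.sum_congr rfl
      intro k _
      ring
  have m1 : ∀ k, AEStronglyMeasurable
      (∑ l, fun x : Cf n => if k < l then v x / nr (x k - x l) else 0) volume := by
    intro k
    exact (memLp_finsetSum' _ fun l _ => (hb k l).1).aestronglyMeasurable
  have m2 : AEStronglyMeasurable
      (∑ k, ∑ l, fun x : Cf n => if k < l then v x / nr (x k - x l) else 0) volume :=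
    (memLp_finsetSum' _ fun k _ => memLp_finsetSum' _ fun l _ => (hb k l).1).aestronglyMeasurable
  have m3 : AEStronglyMeasurable (∑ k, fun x : Cf n => v x / nr (x k)) volume :=
    (memLp_finsetSum' _ fun k _ => (ha k).1).aestronglyMeasurable
  rw [e]
  refine (eLpNorm_sub_le m2 (m3.const_smul Z) (by norm_num)).trans ?_
  rw [eLpNorm_const_smul]
  have s1 : eLpNorm (∑ k, ∑ l, fun x : Cf n => if k < l then v x / nr (x k - x l) else 0) 2
      volume ≤ ENNReal.ofReal ((n * n) * Real.sqrt (4 * T)) := by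
    refine (eLpNorm_sum_le (fun k _ => m1 k) (by norm_num)).trans ?_
    refine (Finset.sum_le_sum fun k _ => eLpNorm_sum_le
      (fun l _ => (hb k l).1.aestronglyMeasurable) (by norm_num)).trans ?_
    refine (Finset.sum_le_sum fun k _ => Finset.sum_le_sum fun l _ => (hb k l).2).trans ?_
    simp only [Finset.sum_const, Finset.card_univ, Fintype.card_fin]
    rw [← mul_nsmul, nsmul_eq_mul, ENNReal.ofReal_mul (by positivity)]
    apply le_of_eq
    congr 1
    rw [← Nat.cast_mul, ENNReal.ofReal_natCast]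
  have s2 : eLpNorm (∑ k, fun x : Cf n => v x / nr (x k)) 2 volume ≤
      ENNReal.ofReal (n * Real.sqrt (4 * T)) := by
    refine (eLpNorm_sum_le (fun k _ => (ha k).1.aestronglyMeasurable) (by norm_num)).trans ?_
    refine (Finset.sum_le_sum fun k _ => (ha k).2).trans ?_
    simp only [Finset.sum_const, Finset.card_univ, Fintype.card_fin]
    rw [nsmul_eq_mul, ENNReal.ofReal_mul (by positivity), ENNReal.ofReal_natCast]
  have s3 : ‖Z‖ₑ = ENNReal.ofReal |Z| := by
    rw [← Real.norm_eq_abs, ofReal_norm]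
  rw [s3]
  refine (add_le_add s1 (mul_le_mul_right s2 _)).trans ?_
  rw [← ENNReal.ofReal_mul (abs_nonneg _), ← ENNReal.ofReal_add (by positivity) (by positivity)]
  apply ENNReal.ofReal_le_ofReal
  apply le_of_eq
  ring

/-- Hardy for the limit -/
theorem apb_V (h1 : ST_HA1) (h2 : ST_HA2) {n : ℕ} (Z : ℝ) {φ : Cf n → ℝ}
    (hφ : MemLp φ 2 volume) {v : ℕ → Cf n → ℝ}
    (hv : ∀ j, ContDiff ℝ (⊤ : ℕ∞) (v j) ∧ HasCompactSupport (v j))
    (c1 : Tendsto (fun j => ∫ x, (v j x - φ x) ^ 2) atTop (nhds 0)) {a : ℕ → ℝ}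
    (ha : Tendsto a atTop (nhds 0))
    (hT : ∀ i j, ∑ k, ∑ i', ∫ x, dv k i' (fun x => v j x - v i x) x ^ 2 ≤ 2 * (a j + a i))
    (j : ℕ) :
    eLpNorm (fun x : Cf n => (rep x - Z * att x) * (v j x - φ x)) 2 volume ≤
      ENNReal.ofReal ((n * n + |Z| * n) * Real.sqrt (4 * (2 * (a j)))) := by
  have hm : ∀ j, MemLp (v j) 2 volume := fun j => com_memLp _ (hv j).1 (hv j).2
  have hN : Tendsto (fun j => eLpNorm (v j - φ) 2 volume) atTop (nhds 0) :=
    apb_to_norm (f := fun j => v j - φ) (fun j => (hm j).sub hφ) c1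
  have hM := tendstoInMeasure_of_tendsto_eLpNorm (p := 2) (by norm_num)
    (fun j => (hm j).aestronglyMeasurable) hφ.aestronglyMeasurable hN
  obtain ⟨ns, hns, hae⟩ := hM.exists_seq_tendsto_ae
  have hlim := Lp.eLpNorm_lim_le_liminf_eLpNorm (p := 2) (μ := (volume : Measure (Cf n)))
    (f := fun i x => (rep x - Z * att x) * (v j x - v (ns i) x))
    (fun i => (((com_rep_meas n).sub ((com_att_meas n).const_mul Z)).mul
      ((hv j).1.continuous.measurable.sub
        (hv (ns i)).1.continuous.measurable)).aestronglyMeasurable)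
    (fun x => (rep x - Z * att x) * (v j x - φ x))
    (by
      filter_upwards [hae] with x hx
      exact tendsto_const_nhds.mul (tendsto_const_nhds.sub hx))
  refine hlim.trans ?_
  have hle : ∀ i, eLpNorm (fun x : Cf n => (rep x - Z * att x) * (v j x - v (ns i) x)) 2 volume ≤
      ENNReal.ofReal ((n * n + |Z| * n) * Real.sqrt (4 * (2 * (a j + a (ns i))))) := fun i =>
    apb_hardy h1 h2 Z (v := fun x => v j x - v (ns i) x) ((hv j).1.sub (hv (ns i)).1)
      ((hv j).2.sub (hv (ns i)).2) (hT (ns i) j)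
  refine (liminf_le_liminf (Eventually.of_forall hle)).trans ?_
  have ht : Tendsto (fun i => ENNReal.ofReal ((n * n + |Z| * n) *
      Real.sqrt (4 * (2 * (a j + a (ns i)))))) atTop
      (nhds (ENNReal.ofReal ((n * n + |Z| * n) * Real.sqrt (4 * (2 * (a j + 0)))))) := by
    apply ENNReal.tendsto_ofReal
    apply Tendsto.const_mul
    refine (Real.continuous_sqrt.tendsto _).comp ?_
    exact ((tendsto_const_nhds.add (ha.comp hns.tendsto_atTop)).const_mul 2).const_mul 4
  rw [ht.liminf_eq, add_zero]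

theorem apb_single {n : ℕ} {f : ℕ → Wf n} (h : Tendsto (fun j => sq (f j)) atTop (nhds 0))
    (s : Fin n → Fin 2) : Tendsto (fun j => ∫ x, f j s x ^ 2) atTop (nhds 0) := by
  refine squeeze_zero (fun j => integral_nonneg fun x => sq_nonneg _) (fun j => ?_) h
  exact Finset.single_le_sum (f := fun s => ∫ x, f j s x ^ 2)
    (fun _ _ => integral_nonneg fun _ => sq_nonneg _) (Finset.mem_univ s)

theorem apb_le {n : ℕ} (f : Wf n) (s : Fin n → Fin 2) : ∫ x, f s x ^ 2 ≤ sq f :=
  Finset.single_le_sum (f := fun s => ∫ x, f s x ^ 2)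
    (fun _ _ => integral_nonneg fun _ => sq_nonneg _) (Finset.mem_univ s)

theorem apb_sub {n : ℕ} {a b c : Cf n → ℝ} (ha : MemLp a 2 volume) (hb : MemLp b 2 volume)
    (hc : MemLp c 2 volume) :
    ∫ x, (a x - b x) ^ 2 ≤ 2 * (∫ x, (a x - c x) ^ 2) + 2 * ∫ x, (b x - c x) ^ 2 := by
  have i1 : Integrable (fun x => (a x - b x) ^ 2) := (ha.sub hb).integrable_sq
  have i2 : Integrable (fun x => (a x - c x) ^ 2) := (ha.sub hc).integrable_sq
  have i3 : Integrable (fun x => (b x - c x) ^ 2) := (hb.sub hc).integrable_sq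
  rw [← integral_const_mul, ← integral_const_mul, ← integral_add (i2.const_mul 2)
    (i3.const_mul 2)]
  apply integral_mono i1 ((i2.const_mul 2).add (i3.const_mul 2))
  intro x
  show (a x - b x) ^ 2 ≤ 2 * (a x - c x) ^ 2 + 2 * (b x - c x) ^ 2
  nlinarith [sq_nonneg ((a x - c x) + (b x - c x))]

theorem apb_dv_sub {n : ℕ} (k : Fin n) (i : Fin 3) {v w : Cf n → ℝ}
    (hv : ContDiff ℝ (⊤ : ℕ∞) v) (hw : ContDiff ℝ (⊤ : ℕ∞) w) (x : Cf n) :
    dv k i (fun x => v x - w x) x = dv k i v x - dv k i w x := by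
  unfold dv
  have h1 : DifferentiableAt ℝ v x := (hv.differentiable (by simp)).differentiableAt
  have h2 : DifferentiableAt ℝ w x := (hw.differentiable (by simp)).differentiableAt
  rw [fderiv_fun_sub h1 h2]
  rfl

theorem apb_main (h1 : ST_HA1) (h2 : ST_HA2) (h3 : ST_INT) (n : ℕ) (E : ℝ) (φ : Wf n)
    (G : Fin n → Fin 3 → Wf n) (S : Fin n → Fin 3 → Fin n → Fin 3 → Wf n) (u : ℕ → Wf n)
    (hφ : ∀ s, MemLp (φ s) 2) (hG : ∀ k i s, MemLp (G k i s) 2)
    (hS : ∀ k i l m s, MemLp (S k i l m s) 2) (hu : ∀ j, Sm (u j))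
    (c1 : Tendsto (fun j => sq (fun s x => u j s x - φ s x)) atTop (nhds 0))
    (c2 : ∀ k i, Tendsto (fun j => sq (fun s x => dv k i (u j s) x - G k i s x)) atTop (nhds 0))
    (c3 : ∀ k i l m, Tendsto (fun j => sq (fun s x => dv k i (dv l m (u j s)) x - S k i l m s x))
      atTop (nhds 0))
    (eig : ∀ s, ∀ᵐ x : Cf n, -(∑ k, ∑ i, S k i k i s x) + (rep x - (n : ℝ) * att x) * φ s x =
      E * φ s x) :
    Tendsto (fun j => res n E (u j)) atTop (nhds 0) ∧ ∃ M : ℝ, ∀ j, dd (u j) ≤ M := by
  have mu : ∀ j s, MemLp (u j s) 2 volume := fun j s => com_memLp _ (hu j s).1 (hu j s).2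
  have md : ∀ j k i s, MemLp (dv k i (u j s)) 2 volume := fun j k i s =>
    com_memLp _ (com_dv_smooth k i _ (hu j s).1) (com_dv_cs k i _ (hu j s).2)
  have mdd : ∀ j k i l m s, MemLp (dv k i (dv l m (u j s))) 2 volume := fun j k i l m s =>
    com_memLp _ (com_dv_smooth k i _ (com_dv_smooth l m _ (hu j s).1))
      (com_dv_cs k i _ (com_dv_cs l m _ (hu j s).2))
  constructor
  · have hs : ∀ s, Tendsto (fun j => ∫ x, (hm n (u j s) x - E * u j s x) ^ 2) atTop
        (nhds 0) := by
      intro s
      set a : ℕ → ℝ := fun j => ∑ k, ∑ i, sq (fun s x => dv k i (u j s) x - G k i s x) with ha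
      have hat : Tendsto a atTop (nhds 0) := by
        have : Tendsto a atTop (nhds (∑ _k : Fin n, ∑ _i : Fin 3, (0 : ℝ))) :=
          tendsto_finsetSum _ fun k _ => tendsto_finsetSum _ fun i _ => c2 k i
        simpa using this
      have hT : ∀ i j, ∑ k, ∑ i', ∫ x, dv k i' (fun x => u j s x - u i s x) x ^ 2 ≤
          2 * (a j + a i) := by
        intro i j
        have e : 2 * (a j + a i) = ∑ k, ∑ i', (2 * sq (fun s x => dv k i' (u j s) x - G k i' s x) +
            2 * sq (fun s x => dv k i' (u i s) x - G k i' s x)) := by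
          rw [ha]
          simp only [Finset.sum_add_distrib, ← Finset.mul_sum]
          ring
        rw [e]
        apply Finset.sum_le_sum
        intro k _
        apply Finset.sum_le_sum
        intro i' _
        have e2 : ∫ x, dv k i' (fun x => u j s x - u i s x) x ^ 2 =
            ∫ x, (dv k i' (u j s) x - dv k i' (u i s) x) ^ 2 := by
          congr 1
          funext x
          rw [apb_dv_sub k i' (hu j s).1 (hu i s).1]
        rw [e2]
        refine (apb_sub (md j k i' s) (md i k i' s) (hG k i' s)).trans ?_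
        have f1 := apb_le (fun s x => dv k i' (u j s) x - G k i' s x) s
        have f2 := apb_le (fun s x => dv k i' (u i s) x - G k i' s x) s
        linarith
      have hV := apb_V h1 h2 (n : ℝ) (hφ s) (fun j => hu j s) (apb_single c1 s) hat hT
      have mh : ∀ j, MemLp (fun x => hm n (u j s) x - E * u j s x) 2 volume := fun j =>
        (com_hm_memLp h3 n _ (hu j s).1 (hu j s).2).sub ((mu j s).const_mul E)
      refine apb_to_int mh ?_
      have mV : ∀ j, AEStronglyMeasurable
          (fun x : Cf n => (rep x - (n : ℝ) * att x) * (u j s x - φ s x)) volume := fun j =>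
        ((com_rep_meas n).sub ((com_att_meas n).const_mul (n : ℝ))).aestronglyMeasurable.mul
          ((mu j s).sub (hφ s)).aestronglyMeasurable
      have mA : ∀ j, MemLp (∑ k, ∑ i, fun x => dv k i (dv k i (u j s)) x - S k i k i s x) 2
          volume := fun j =>
        memLp_finsetSum' _ fun k _ => memLp_finsetSum' _ fun i _ =>
          (mdd j k i k i s).sub (hS k i k i s)
      have hb : ∀ j, eLpNorm (fun x => hm n (u j s) x - E * u j s x) 2 volume ≤
          (∑ k, ∑ i, eLpNorm (fun x => dv k i (dv k i (u j s)) x - S k i k i s x) 2 volume) +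
          ENNReal.ofReal ((n * n + |(n : ℝ)| * n) * Real.sqrt (4 * (2 * (a j)))) +
          ‖E‖ₑ * eLpNorm (fun x => u j s x - φ s x) 2 volume := by
        intro j
        have e : (fun x => hm n (u j s) x - E * u j s x) =ᵐ[volume]
            ((-(∑ k, ∑ i, fun x => dv k i (dv k i (u j s)) x - S k i k i s x)) +
              fun x : Cf n => (rep x - (n : ℝ) * att x) * (u j s x - φ s x)) -
              E • fun x => u j s x - φ s x := by
          filter_upwards [eig s] with x hx
          simp only [Pi.sub_apply, Pi.add_apply, Pi.neg_apply, Finset.sum_apply, Pi.smul_apply,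
            smul_eq_mul, Finset.sum_sub_distrib]
          unfold hm
          linear_combination hx
        rw [eLpNorm_congr_ae e]
        have mE : AEStronglyMeasurable (E • fun x => u j s x - φ s x) volume :=
          (((mu j s).sub (hφ s)).const_smul E).aestronglyMeasurable
        refine (eLpNorm_sub_le ((mA j).neg.aestronglyMeasurable.add (mV j)) mE
          (by norm_num)).trans ?_
        rw [eLpNorm_const_smul]
        refine add_le_add ?_ le_rfl
        refine (eLpNorm_add_le (mA j).neg.aestronglyMeasurable (mV j) (by norm_num)).trans ?_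
        refine add_le_add ?_ (hV j)
        rw [eLpNorm_neg]
        refine (eLpNorm_sum_le (fun k _ => (memLp_finsetSum' _ fun i _ =>
          (mdd j k i k i s).sub (hS k i k i s)).aestronglyMeasurable) (by norm_num)).trans ?_
        exact Finset.sum_le_sum fun k _ => eLpNorm_sum_le
          (fun i _ => ((mdd j k i k i s).sub (hS k i k i s)).aestronglyMeasurable) (by norm_num)
      have t1 : Tendsto (fun j => ∑ k, ∑ i,
          eLpNorm (fun x => dv k i (dv k i (u j s)) x - S k i k i s x) 2 volume) atTop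
          (nhds 0) := by
        have : Tendsto (fun j => ∑ k, ∑ i,
            eLpNorm (fun x => dv k i (dv k i (u j s)) x - S k i k i s x) 2 volume) atTop
            (nhds (∑ _k : Fin n, ∑ _i : Fin 3, (0 : ENNReal))) :=
          tendsto_finsetSum _ fun k _ => tendsto_finsetSum _ fun i _ =>
            apb_to_norm (fun j => (mdd j k i k i s).sub (hS k i k i s))
              (apb_single (c3 k i k i) s)
        simpa using this
      have t2 : Tendsto (fun j => ENNReal.ofReal ((n * n + |(n : ℝ)| * n) *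
          Real.sqrt (4 * (2 * (a j))))) atTop (nhds 0) := by
        have h4 : Tendsto (fun j => (n * n + |(n : ℝ)| * n) * Real.sqrt (4 * (2 * (a j)))) atTop
            (nhds ((n * n + |(n : ℝ)| * n) * Real.sqrt (4 * (2 * 0)))) := by
          apply Tendsto.const_mul
          exact (Real.continuous_sqrt.tendsto _).comp ((hat.const_mul 2).const_mul 4)
        have h5 := ENNReal.tendsto_ofReal h4
        simpa using h5
      have t3 : Tendsto (fun j => ‖E‖ₑ * eLpNorm (fun x => u j s x - φ s x) 2 volume) atTop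
          (nhds 0) := by
        have h6 : Tendsto (fun j => ‖E‖ₑ * eLpNorm (fun x => u j s x - φ s x) 2 volume) atTop
            (nhds (‖E‖ₑ * 0)) := ENNReal.Tendsto.const_mul (a := ‖E‖ₑ)
          (apb_to_norm (fun j => (mu j s).sub (hφ s)) (apb_single c1 s))
          (Or.inr enorm_ne_top)
        rw [mul_zero] at h6
        exact h6
      have t4 := (t1.add t2).add t3
      rw [add_zero, add_zero] at t4
      exact tendsto_of_tendsto_of_tendsto_of_le_of_le tendsto_const_nhds t4
        (fun j => zero_le) hb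
    have : Tendsto (fun j => res n E (u j)) atTop (nhds (∑ _s : Fin n → Fin 2, (0 : ℝ))) :=
      tendsto_finsetSum _ fun s _ => hs s
    simpa using this
  · have hb : ∀ k i l m, ∃ M : ℝ, ∀ j, sq (fun s => dv k i (dv l m (u j s))) ≤ M := by
      intro k i l m
      obtain ⟨M, hM⟩ := (c3 k i l m).bddAbove_range
      refine ⟨2 * M + 2 * sq (S k i l m), fun j => ?_⟩
      have hj : sq (fun s x => dv k i (dv l m (u j s)) x - S k i l m s x) ≤ M := hM ⟨j, rfl⟩
      have h4 : sq (fun s => dv k i (dv l m (u j s))) ≤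
          2 * sq (fun s x => dv k i (dv l m (u j s)) x - S k i l m s x) +
            2 * sq (S k i l m) := by
        unfold sq
        rw [Finset.mul_sum, Finset.mul_sum, ← Finset.sum_add_distrib]
        apply Finset.sum_le_sum
        intro s _
        have h5 := apb_sub (mdd j k i l m s) (MemLp.zero : MemLp (0 : Cf n → ℝ) 2 volume)
          (hS k i l m s)
        simpa using h5
      linarith
    choose M hM using hb
    exact ⟨∑ k, ∑ i, ∑ l, ∑ m, M k i l m, fun j => Finset.sum_le_sum fun k _ =>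
      Finset.sum_le_sum fun i _ => Finset.sum_le_sum fun l _ => Finset.sum_le_sum fun m _ =>
        hM k i l m j⟩

end Pool.Agent.Helper95.PW
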