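import Pool.Agent.Helper95.PW.Stmts

set_option autoImplicit false

namespace Pool.Agent.Helper95.PW

open MeasureTheory Filter

theorem qle_nr_cont : Continuous nr := by
  unfold nr
  fun_prop

theorem qle_nr_nonneg (y : R3) : 0 ≤ nr y := Real.sqrt_nonneg _

theorem qle_att_meas (n : ℕ) : Measurable (att : Cf n → ℝ) := by
  unfold att
  apply Finset.measurable_sum
  intro k _
  exact measurable_const.div (qle_nr_cont.measurable.comp (measurable_pi_apply k))

theorem qle_rep_meas (n : ℕ) : Measurable (rep : Cf n → ℝ) := by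
  unfold rep
  apply Finset.measurable_sum
  intro k _
  apply Finset.measurable_sum
  intro l _
  by_cases h : k < l
  · simp only [if_pos h]
    exact measurable_const.div (qle_nr_cont.measurable.comp
      ((measurable_pi_apply k).sub (measurable_pi_apply l)))
  · simp only [if_neg h]
    exact measurable_const

theorem qle_dv_smooth {n : ℕ} (k : Fin n) (i : Fin 3) {v : Cf n → ℝ}
    (hv : ContDiff ℝ (⊤ : ℕ∞) v) : ContDiff ℝ (⊤ : ℕ∞) (dv k i v) := by
  unfold dv
  exact (hv.fderiv_right (m := (⊤ : ℕ∞)) (by simp)).clm_apply contDiff_const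

theorem qle_dv_cs {n : ℕ} (k : Fin n) (i : Fin 3) {v : Cf n → ℝ}
    (hv : HasCompactSupport v) : HasCompactSupport (dv k i v) := by
  unfold dv
  exact hv.fderiv_apply ℝ _

/-- the smooth part of the Hamiltonian -/
theorem qle_S {n : ℕ} {v : Cf n → ℝ} (hv : ContDiff ℝ (⊤ : ℕ∞) v) (hc : HasCompactSupport v) :
    Continuous (fun x => ∑ k, ∑ i, dv k i (dv k i v) x) ∧
    HasCompactSupport (fun x => ∑ k, ∑ i, dv k i (dv k i v) x) := by
  constructor
  · apply continuous_finsetSum
    intro k _
    apply continuous_finsetSum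
    intro i _
    exact (qle_dv_smooth k i (qle_dv_smooth k i hv)).continuous
  · have : ∀ (s : Finset (Fin n × Fin 3)),
        HasCompactSupport (fun x => ∑ p ∈ s, dv p.1 p.2 (dv p.1 p.2 v) x) := by
      classical
      intro s
      induction s using Finset.induction_on with
      | empty =>
        simp only [Finset.sum_empty]
        exact HasCompactSupport.zero
      | insert a s ha ih =>
        simp only [Finset.sum_insert ha]
        exact (qle_dv_cs a.1 a.2 (qle_dv_cs a.1 a.2 hc)).add ih
    have h := this Finset.univ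
    have e : (fun x => ∑ k, ∑ i, dv k i (dv k i v) x) =
        fun x => ∑ p : Fin n × Fin 3, dv p.1 p.2 (dv p.1 p.2 v) x := by
      funext x
      rw [Fintype.sum_prod_type]
    rw [e]
    exact h

/-- square integrability of `(H - E) v` -/
theorem qle_memLp (h8 : ST_INT) {n : ℕ} (Z E : ℝ) {v : Cf n → ℝ}
    (hv : ContDiff ℝ (⊤ : ℕ∞) v) (hc : HasCompactSupport v) :
    MemLp (fun x => hm Z v x - E * v x) 2 := by
  obtain ⟨_, _, i3, i4⟩ := h8 n v v hv hc hv hc
  have m1 : MemLp v 2 := hv.continuous.memLp_of_hasCompactSupport hc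
  have m2 : MemLp (fun x => ∑ k, ∑ i, dv k i (dv k i v) x) 2 :=
    (qle_S hv hc).1.memLp_of_hasCompactSupport (qle_S hv hc).2
  have m3 : MemLp (fun x : Cf n => att x * v x) 2 :=
    (memLp_two_iff_integrable_sq (f := fun x : Cf n => att x * v x)
      ((qle_att_meas n).mul hv.continuous.measurable).aestronglyMeasurable).2 i3
  have m4 : MemLp (fun x : Cf n => rep x * v x) 2 :=
    (memLp_two_iff_integrable_sq (f := fun x : Cf n => rep x * v x)
      ((qle_rep_meas n).mul hv.continuous.measurable).aestronglyMeasurable).2 i4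
  have h := ((m2.neg).add (m4.sub (m3.const_mul Z))).sub (m1.const_mul E)
  refine h.ae_eq (Eventually.of_forall fun x => ?_)
  simp only [Pi.add_apply, Pi.sub_apply, Pi.neg_apply, hm]
  ring

theorem qle_main (h7 : ST_QH) (h8 : ST_INT) (n : ℕ) (E : ℝ) (u : Wf n) (hu : Sm u)
    (hs : sq u ≤ 2) (hE : E ≤ 0) (hr : res n E u ≤ 1 / 2) : Q n u ≤ 1 := by
  have hq := h7 n n u u hu hu
  rw [hq.2, hq.1]
  have hf : ∀ s, MemLp (fun x => hm n (u s) x - E * u s x) 2 :=
    fun s => qle_memLp h8 n E (hu s).1 (hu s).2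
  have hm1 : ∀ s, MemLp (u s) 2 := fun s => (hu s).1.continuous.memLp_of_hasCompactSupport (hu s).2
  have hterm : ∀ s, ∫ x, u s x * hm n (u s) x ≤
      E * (∫ x, u s x ^ 2) + ((1 / 4) * (∫ x, u s x ^ 2) +
        ∫ x, (hm n (u s) x - E * u s x) ^ 2) := by
    intro s
    have i1 : Integrable (fun x => u s x ^ 2) := (hm1 s).integrable_sq
    have i2 : Integrable (fun x => (hm n (u s) x - E * u s x) ^ 2) := (hf s).integrable_sq
    have i3 : Integrable (fun x => u s x * (hm n (u s) x - E * u s x)) := by
      have := (hf s).integrable_mul (hm1 s)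
      refine this.congr (Eventually.of_forall fun x => ?_)
      simp only [Pi.mul_apply]
      ring
    have e1 : ∫ x, u s x * hm n (u s) x =
        E * (∫ x, u s x ^ 2) + ∫ x, u s x * (hm n (u s) x - E * u s x) := by
      rw [← integral_const_mul, ← integral_add (i1.const_mul E) i3]
      apply integral_congr_ae
      refine Eventually.of_forall fun x => ?_
      show u s x * hm n (u s) x = E * u s x ^ 2 + u s x * (hm n (u s) x - E * u s x)
      ring
    have e2 : ∫ x, u s x * (hm n (u s) x - E * u s x) ≤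
        (1 / 4) * (∫ x, u s x ^ 2) + ∫ x, (hm n (u s) x - E * u s x) ^ 2 := by
      rw [← integral_const_mul, ← integral_add (i1.const_mul _) i2]
      apply integral_mono i3 ((i1.const_mul _).add i2)
      intro x
      show u s x * (hm n (u s) x - E * u s x) ≤
        1 / 4 * u s x ^ 2 + (hm n (u s) x - E * u s x) ^ 2
      nlinarith [sq_nonneg (u s x / 2 - (hm n (u s) x - E * u s x))]
    rw [e1]
    linarith
  have hsum : ∑ s, ∫ x, u s x * hm n (u s) x ≤
      E * sq u + ((1 / 4) * sq u + res n E u) := by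
    calc ∑ s, ∫ x, u s x * hm n (u s) x ≤ ∑ s, (E * (∫ x, u s x ^ 2) +
        ((1 / 4) * (∫ x, u s x ^ 2) + ∫ x, (hm n (u s) x - E * u s x) ^ 2)) :=
          Finset.sum_le_sum fun s _ => hterm s
      _ = _ := by
          unfold res sq
          rw [Finset.sum_add_distrib, Finset.sum_add_distrib, Finset.mul_sum, Finset.mul_sum]
  have hs0 : 0 ≤ sq u := by
    unfold sq
    exact Finset.sum_nonneg fun s _ => integral_nonneg fun x => sq_nonneg _
  have h1 : E * sq u ≤ 0 := mul_nonpos_of_nonpos_of_nonneg hE hs0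
  linarith

/-! sign facts -/

theorem qle_att_nonneg {n : ℕ} (x : Cf n) : 0 ≤ att x := by
  unfold att
  exact Finset.sum_nonneg fun k _ => div_nonneg zero_le_one (qle_nr_nonneg _)

theorem qle_one_nonneg {n : ℕ} (w : R3 → ℝ) (hw : ∀ y, 0 ≤ w y) (u : Wf n) : 0 ≤ one w u := by
  unfold one
  exact Finset.sum_nonneg fun s _ => integral_nonneg fun x =>
    mul_nonneg (Finset.sum_nonneg fun k _ => hw _) (sq_nonneg _)

theorem qle_ball_nonneg (R : ℝ) (y : R3) : 0 ≤ ball R y := by
  unfold ball
  exact Set.indicator_nonneg (fun _ _ => zero_le_one) y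

theorem qle_ball_le (R : ℝ) (y : R3) : ball R y ≤ 1 := by
  unfold ball
  exact Set.indicator_le_self' (fun _ _ => zero_le_one) y

theorem qle_one_ball {n : ℕ} (R : ℝ) (u : Wf n) (hu : Sm u) : one (ball R) u ≤ n * sq u := by
  unfold one sq
  rw [Finset.mul_sum]
  apply Finset.sum_le_sum
  intro s _
  have hm1 : MemLp (u s) 2 := (hu s).1.continuous.memLp_of_hasCompactSupport (hu s).2
  rw [← integral_const_mul]
  apply integral_mono_of_nonneg
  · exact Eventually.of_forall fun x => mul_nonneg
      (Finset.sum_nonneg fun k _ => qle_ball_nonneg _ _) (sq_nonneg _)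
  · exact hm1.integrable_sq.const_mul _
  · refine Eventually.of_forall fun x => ?_
    apply mul_le_mul_of_nonneg_right _ (sq_nonneg _)
    calc ∑ k, ball R (x k) ≤ ∑ _k : Fin n, (1 : ℝ) :=
          Finset.sum_le_sum fun k _ => qle_ball_le _ _
      _ = n := by simp

end Pool.Agent.Helper95.PW
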